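import Pool.Agent.CY53.Model

/-! The theorem for the sieved random model; the sieving limit may grow. -/

set_option autoImplicit false

namespace Pool.Agent.CY53

open MeasureTheory ProbabilityTheory Filter Topology Finset Pool.Agent.CR53

open Pool.Agent.RG88 (pz pz_nonneg pz_le_one)

/-- The coin for the integer `m`: `true` with probability `pz (y ⌊√m⌋) m`, i.e. the integers `m` with
`n ^ 2 ≤ m < (n + 1) ^ 2` are sieved up to `y n`. -/
noncomputable def coinY (y : ℕ → ℕ) (m : ℕ) : Measure Bool :=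
  ENNReal.ofReal (pz (y (Nat.sqrt m)) m) • Measure.dirac true +
    ENNReal.ofReal (1 - pz (y (Nat.sqrt m)) m) • Measure.dirac false

instance coinY_prob (y : ℕ → ℕ) (m : ℕ) : IsProbabilityMeasure (coinY y m) := by
  constructor
  unfold coinY
  simp only [Measure.coe_add, Measure.coe_smul, Pi.add_apply, Pi.smul_apply, measure_univ,
    smul_eq_mul, mul_one]
  rw [← ENNReal.ofReal_add (pz_nonneg _ m) (sub_nonneg.2 (pz_le_one _ m))]
  simp

lemma coinY_true (y : ℕ → ℕ) (m : ℕ) :
    coinY y m {true} = ENNReal.ofReal (pz (y (Nat.sqrt m)) m) := by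
  unfold coinY
  simp

/-- the random set of the model is given by independent events -/
theorem facts (y : ℕ → ℕ) :
    (∀ m : ℕ, MeasurableSet {ω : ℕ → Bool | ω m = true}) ∧
    iIndepSet (fun m : ℕ => {ω : ℕ → Bool | ω m = true}) (Measure.infinitePi (coinY y)) ∧
    ∀ m : ℕ, (Measure.infinitePi (coinY y)).real {ω : ℕ → Bool | ω m = true} =
      pz (y (Nat.sqrt m)) m := by
  have hm : ∀ m : ℕ, MeasurableSet {ω : ℕ → Bool | ω m = true} := fun m => by
    have h : Measurable (fun ω : ℕ → Bool => ω m) := measurable_pi_apply m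
    exact h (measurableSet_singleton true)
  have key : ∀ s : Finset ℕ, Measure.infinitePi (coinY y) (⋂ m ∈ s, {ω : ℕ → Bool | ω m = true})
      = ∏ m ∈ s, ENNReal.ofReal (pz (y (Nat.sqrt m)) m) := by
    intro s
    have e : (⋂ m ∈ s, {ω : ℕ → Bool | ω m = true})
        = Set.pi (s : Set ℕ) (fun _ => ({true} : Set Bool)) := by
      ext ω
      simp [Set.mem_pi]
    rw [e, Measure.infinitePi_pi _ (fun m _ => measurableSet_singleton true)]
    exact prod_congr rfl fun m _ => coinY_true y m
  have key1 : ∀ m : ℕ, Measure.infinitePi (coinY y) {ω : ℕ → Bool | ω m = true} =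
      ENNReal.ofReal (pz (y (Nat.sqrt m)) m) := by
    intro m
    have := key {m}
    simpa using this
  refine ⟨hm, ?_, ?_⟩
  · rw [iIndepSet_iff_meas_biInter hm]
    intro s
    rw [key s]
    exact prod_congr rfl fun m _ => (key1 m).symm
  · intro m
    rw [Measure.real, key1 m, ENNReal.toReal_ofReal (pz_nonneg _ m)]

/-- the theorem for the product measure -/
theorem sieve_main {y : ℕ → ℕ}
    (hy : Tendsto (fun n : ℕ => (y n : ℝ) / Real.log n) atTop (𝓝 0)) :
    ∀ᵐ ω ∂(Measure.infinitePi (coinY y)), Q1 (sqCount {m | ω m = true}) ∧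
      Tendsto (fun n : ℕ => (recSeq (sqCount {m | ω m = true}) n : ℝ) / (n : ℝ) ^ 2) atTop
        (𝓝 (1 / 4)) := by
  obtain ⟨h1, h2, h3⟩ := facts y
  exact model_main (μ := Measure.infinitePi (coinY y))
    (E := fun m : ℕ => {ω : ℕ → Bool | ω m = true}) h1 h2 (laws_sieve hy h1 h2 h3)

end Pool.Agent.CY53
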