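import Pool.Agent.CY53.Defs

/-! Asymptotic bounds for the laws (as CR53/Asym, with an error `1` in the means). -/

set_option autoImplicit false

namespace Pool.Agent.CY53

open Finset Filter Topology Pool.Agent.CR53

lemma t_mu : Tendsto mu atTop atTop := by
  have h : ∀ᶠ n : ℕ in atTop, Real.sqrt n ≤ mu n := by
    filter_upwards [eventually_ge_atTop 3, t_lam.eventually_lt_const (show (0 : ℝ) < 1 by norm_num)]
      with n hn hl
    have hlm := lam_mul_mu (show 2 ≤ n by omega)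
    have hmu := mu_pos (show 2 ≤ n by omega)
    rw [← hlm]
    nlinarith [mul_le_mul_of_nonneg_right hl.le hmu.le]
  exact tendsto_atTop_mono' atTop h t_sqrt

section laws

variable {g : ℕ → ℕ → ℝ}

lemma S0_le_one (hg : LawsZ g) (n f : ℕ) : S0 (g n) f ≤ 1 := by
  unfold S0
  rcases le_total f (2 * n) with h | h
  · rw [← hg.total n]
    exact sum_le_sum_of_subset_of_nonneg (range_subset_range.mpr (by omega))
      (fun i _ _ => hg.nonneg n i)
  · rw [← hg.total n]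
    refine (sum_subset (range_subset_range.mpr (by omega)) (fun i _ hi => ?_)).ge
    apply hg.zero
    rw [mem_range] at hi
    omega

lemma S0_nn (hg : LawsZ g) (n f : ℕ) : 0 ≤ S0 (g n) f := sum_nonneg fun i _ => hg.nonneg n i

lemma S1_nn (hg : LawsZ g) (n f : ℕ) : 0 ≤ S1 (g n) f := by
  refine sum_nonneg fun i hi => mul_nonneg ?_ (hg.nonneg n i)
  have : i ≤ f := Nat.lt_succ_iff.mp (mem_range.mp hi)
  have : (i : ℝ) ≤ f := by exact_mod_cast this
  linarith

lemma S2_nn (hg : LawsZ g) (n f : ℕ) : 0 ≤ S2 (g n) f :=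
  sum_nonneg fun i _ => mul_nonneg (sq_nonneg _) (hg.nonneg n i)

lemma S2_le (hg : LawsZ g) (n f : ℕ) : S2 (g n) f ≤ (f : ℝ) ^ 2 := by
  have h1 : S2 (g n) f ≤ (f : ℝ) ^ 2 * S0 (g n) f := by
    unfold S2 S0
    rw [mul_sum]
    refine sum_le_sum fun i hi => mul_le_mul_of_nonneg_right ?_ (hg.nonneg n i)
    have : i ≤ f := Nat.lt_succ_iff.mp (mem_range.mp hi)
    have h2 : (i : ℝ) ≤ f := by exact_mod_cast this
    have h3 : (0 : ℝ) ≤ i := Nat.cast_nonneg i
    exact pow_le_pow_left₀ (by linarith) (by linarith) 2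
  refine h1.trans ?_
  have := mul_le_mul_of_nonneg_left (S0_le_one hg n f) (sq_nonneg (f : ℝ))
  linarith

/-- the three inequalities, for large `n`; `u = 2 e / √n → 0` -/
lemma I123 (hg : LawsZ g) : ∃ q u : ℕ → ℝ, Tendsto q atTop (𝓝 0) ∧ Tendsto u atTop (𝓝 0) ∧
    ∀ᶠ n : ℕ in atTop, ∃ m : ℝ, mu n - u n * Real.sqrt n ≤ m ∧ m ≤ mu n + u n * Real.sqrt n ∧
      0 < m ∧ q n < 1 ∧ 0 ≤ u n ∧ ∀ f : ℕ,
      (m - f) * S1 (g n) f ≤ m * S0 (g n) f ∧ (m - f) * S2 (g n) f ≤ 2 * m * S1 (g n) f ∧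
      (1 - q n) * f * S0 (g n) f ≤
        (mu n + u n * Real.sqrt n - f) * S1 (g n) f + S2 (g n) f := by
  obtain ⟨T, wm, wp, e, hwp0, he, hev⟩ := hg.ex
  have hu : Tendsto (fun n : ℕ => 2 * (e n / Real.sqrt n)) atTop (𝓝 0) := by
    have := he.const_mul 2
    rwa [mul_zero] at this
  refine ⟨fun n => wp n / (1 + wp n), fun n => 2 * (e n / Real.sqrt n), ?_, hu, ?_⟩
  · have h := hwp0.div (tendsto_const_nhds.add hwp0) (show (1 : ℝ) + 0 ≠ 0 by norm_num)
    rw [zero_div] at h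
    exact h
  filter_upwards [hev, t_mu.eventually_ge_atTop 3, eventually_ge_atTop 3,
    he.eventually_lt_const (show (0 : ℝ) < 1 / 4 by norm_num),
    t_lam.eventually_lt_const (show (0 : ℝ) < 1 by norm_num)] with n h hmu hn hes hlam
  obtain ⟨hr, hm0, hp0, he1, htot, hab, hle, hd⟩ := h
  rw [abs_le] at hab
  have hnn : (3 : ℝ) ≤ n := by exact_mod_cast hn
  have hs0 : 0 < Real.sqrt n := Real.sqrt_pos.mpr (by linarith)
  have hu2 : 2 * (e n / Real.sqrt n) * Real.sqrt n = 2 * e n := by field_simp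
  have hes' : e n ≤ 1 / 4 * Real.sqrt n := by
    rw [div_lt_iff₀ hs0] at hes
    exact hes.le
  have hlm := lam_mul_mu (show 2 ≤ n by omega)
  have hsm : Real.sqrt n ≤ mu n := by
    rw [← hlm]
    nlinarith [mul_le_mul_of_nonneg_right hlam.le (by linarith : (0 : ℝ) ≤ mu n)]
  refine ⟨wm n * T n / (1 + wm n), ?_, ?_, ?_, ?_, by positivity, fun f => ⟨?_, ?_, ?_⟩⟩
  · show mu n - 2 * (e n / Real.sqrt n) * Real.sqrt n ≤ _
    rw [hu2]
    linarith [hab.1]
  · show _ ≤ mu n + 2 * (e n / Real.sqrt n) * Real.sqrt n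
    rw [hu2]
    linarith [hab.2]
  · linarith [hab.1]
  · show wp n / (1 + wp n) < 1
    rw [div_lt_one (by linarith)]
    linarith
  · have := I1 hr hm0 (by positivity) f
    have h2 := S2_nn hg n f
    linarith
  · exact I2 hr hm0 (by positivity) f
  · have h3 := I3 hr hp0 f
    refine h3.trans ?_
    have h1 := S1_nn hg n f
    show _ ≤ (mu n + 2 * (e n / Real.sqrt n) * Real.sqrt n - f) * S1 (g n) f + S2 (g n) f
    rw [hu2]
    have : (wp n * T n / (1 + wp n) - f + 1) * S1 (g n) f ≤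
        (mu n + 2 * e n - f) * S1 (g n) f :=
      mul_le_mul_of_nonneg_right (by linarith [hab.2]) h1
    linarith

/-- (A1) -/
lemma A1 (hg : LawsZ g) {ε : ℝ} (h0 : 0 < ε) (h1 : ε < 1 / 4) : ∀ᶠ n : ℕ in atTop, ∀ f : ℕ,
    (f : ℝ) ≤ mu n - (1 - ε) * Real.sqrt n → lam n * S1 (g n) f ≤ (1 + 2 * ε) * S0 (g n) f := by
  obtain ⟨q, u, -, hu, hI⟩ := I123 hg
  have tL : Tendsto (fun n : ℕ => 1 + u n * lam n) atTop (𝓝 (1 + 0 * 0)) :=
    tendsto_const_nhds.add (hu.mul t_lam)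
  have tR : Tendsto (fun n : ℕ => ((1 - ε) - u n) * (1 + 2 * ε)) atTop
      (𝓝 (((1 - ε) - 0) * (1 + 2 * ε))) :=
    (tendsto_const_nhds.sub hu).mul_const _
  have e1 : 1 + 0 * 0 < ((1 - ε) - 0) * (1 + 2 * ε) := by nlinarith
  filter_upwards [eventually_ge_atTop 3, hI, tL.eventually_lt tR e1,
    hu.eventually_lt_const (show (0 : ℝ) < 1 / 4 by norm_num)]
    with n hn hI hLR hu4 f hf
  obtain ⟨m, hm1, hm2, hm0, -, hu0, hI⟩ := hI
  obtain ⟨i1, -, -⟩ := hI f
  have hlm := lam_mul_mu (show 2 ≤ n by omega)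
  have hl := lam_nonneg n
  have n0 := S0_nn hg n f
  have n1 := S1_nn hg n f
  have hnn : (3 : ℝ) ≤ n := by exact_mod_cast hn
  set s := Real.sqrt n with hs'
  have hspos : 0 < s := Real.sqrt_pos.mpr (by linarith)
  have hb : 0 < (1 - ε) - u n := by linarith
  have k1 : (((1 - ε) - u n) * s) * S1 (g n) f ≤ (mu n + u n * s) * S0 (g n) f := by
    have a1 : (((1 - ε) - u n) * s) * S1 (g n) f ≤ (m - f) * S1 (g n) f :=
      mul_le_mul_of_nonneg_right (by linarith) n1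
    have a2 : m * S0 (g n) f ≤ (mu n + u n * s) * S0 (g n) f := mul_le_mul_of_nonneg_right hm2 n0
    linarith
  have k2 : (((1 - ε) - u n) * s) * (lam n * S1 (g n) f) ≤
      (s * (1 + u n * lam n)) * S0 (g n) f := by
    have h5 := mul_le_mul_of_nonneg_left k1 hl
    have h6 : lam n * ((mu n + u n * s) * S0 (g n) f) = (s * (1 + u n * lam n)) * S0 (g n) f := by
      have : lam n * (mu n + u n * s) = s + lam n * (u n * s) := by rw [← hlm]; ring
      calc lam n * ((mu n + u n * s) * S0 (g n) f) = (lam n * (mu n + u n * s)) * S0 (g n) f := by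
            ring
        _ = (s * (1 + u n * lam n)) * S0 (g n) f := by rw [this]; ring
    rw [h6] at h5
    linarith
  have k3 : s * (1 + u n * lam n) ≤ (((1 - ε) - u n) * s) * (1 + 2 * ε) := by
    have := mul_le_mul_of_nonneg_left hLR.le hspos.le
    linarith
  have k4 : (((1 - ε) - u n) * s) * (lam n * S1 (g n) f)
      ≤ (((1 - ε) - u n) * s) * ((1 + 2 * ε) * S0 (g n) f) := by
    have := mul_le_mul_of_nonneg_right k3 n0
    linarith
  exact le_of_mul_le_mul_left k4 (mul_pos hb hspos)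

/-- (A2) -/
lemma A2 (hg : LawsZ g) {ε : ℝ} (h0 : 0 < ε) (h1 : ε < 1 / 4) : ∀ᶠ n : ℕ in atTop, ∀ f : ℕ,
    (f : ℝ) ≤ mu n - (1 - ε) * Real.sqrt n → mu n - (1 + ε) * Real.sqrt n ≤ f →
    S0 (g n) f ≤ (1 + 2 * ε) * (lam n * S1 (g n) f) := by
  obtain ⟨q, u, hq, hu, hI⟩ := I123 hg
  -- the two limits
  have tA : Tendsto (fun n : ℕ => (1 - q n) * (1 - (1 + ε) * lam n)) atTop
      (𝓝 ((1 - 0) * (1 - (1 + ε) * 0))) :=
    (tendsto_const_nhds.sub hq).mul (tendsto_const_nhds.sub (t_lam.const_mul (1 + ε)))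
  have tB : Tendsto (fun n : ℕ => (1 + ε) + u n
      + 2 * (1 / Real.log n + u n * (1 / Real.sqrt n)) *
        (1 / ((1 - ε) - u n))) atTop
      (𝓝 ((1 + ε) + 0 + 2 * (0 + 0 * 0) * (1 / ((1 - ε) - 0)))) := by
    refine (tendsto_const_nhds.add hu).add
      (((t_invlog.add (hu.mul t_invsqrt)).const_mul 2).mul ?_)
    refine tendsto_const_nhds.div (tendsto_const_nhds.sub hu) ?_
    linarith
  have tC := tA.const_mul (1 + 2 * ε)
  have e1 : (1 + ε) + 0 + 2 * (0 + 0 * 0) * (1 / ((1 - ε) - 0)) <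
      (1 + 2 * ε) * ((1 - 0) * (1 - (1 + ε) * 0)) := by
    ring_nf; linarith
  have ev := tB.eventually_lt tC e1
  filter_upwards [eventually_ge_atTop 3, ev,
    tA.eventually_const_lt (show (0 : ℝ) < (1 - 0) * (1 - (1 + ε) * 0) by norm_num), hI,
    hu.eventually_lt_const (show (0 : ℝ) < 1 / 4 by norm_num)]
    with n hn hev hA hI hu4 f hf hf2
  obtain ⟨m, hm1, hm2, hm0, hq1, hu0, hI⟩ := hI
  obtain ⟨-, i2, i3⟩ := hI f
  have hn2 : 2 ≤ n := by omega
  have hlm := lam_mul_mu hn2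
  have hl := lam_nonneg n
  have n0 := S0_nn hg n f
  have n1 := S1_nn hg n f
  have n2 := S2_nn hg n f
  have hL := log_ge_one hn
  have hmu := mu_pos hn2
  have hnn : (3 : ℝ) ≤ n := by exact_mod_cast hn
  set s := Real.sqrt n with hs'
  have hss : s * s = n := Real.mul_self_sqrt (by linarith)
  have hspos : 0 < s := Real.sqrt_pos.mpr (by linarith)
  have hb : 0 < (1 - ε) - u n := by linarith
  have hbs : 0 < ((1 - ε) - u n) * s := mul_pos hb hspos
  -- bound on S2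
  have k1 : S2 (g n) f ≤ 2 * (mu n + u n * s) / (((1 - ε) - u n) * s) * S1 (g n) f := by
    rw [div_mul_eq_mul_div, le_div_iff₀ hbs]
    have a1 : (((1 - ε) - u n) * s) * S2 (g n) f ≤ (m - f) * S2 (g n) f :=
      mul_le_mul_of_nonneg_right (by linarith) n2
    have a2 : 2 * m * S1 (g n) f ≤ 2 * (mu n + u n * s) * S1 (g n) f :=
      mul_le_mul_of_nonneg_right (by linarith) n1
    linarith
  have hp : 0 < 1 - q n := by linarith
  have k2 : (1 - q n) * (mu n - (1 + ε) * s) * S0 (g n) f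
      ≤ ((1 + ε) * s + u n * s + 2 * (mu n + u n * s) / (((1 - ε) - u n) * s)) *
        S1 (g n) f := by
    have a1 : (1 - q n) * (mu n - (1 + ε) * s) * S0 (g n) f
        ≤ (1 - q n) * f * S0 (g n) f :=
      mul_le_mul_of_nonneg_right (mul_le_mul_of_nonneg_left hf2 hp.le) n0
    have a2 : (mu n + u n * s - f) * S1 (g n) f ≤ ((1 + ε) * s + u n * s) * S1 (g n) f :=
      mul_le_mul_of_nonneg_right (by linarith) n1
    linarith
  -- identify the two sides with the limits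
  have eA : (1 - q n) * (mu n - (1 + ε) * s)
      = mu n * ((1 - q n) * (1 - (1 + ε) * lam n)) := by
    have : (1 + ε) * s = (1 + ε) * (lam n * mu n) := by rw [hlm]
    rw [this]; ring
  have eB : (1 + ε) * s + u n * s + 2 * (mu n + u n * s) / (((1 - ε) - u n) * s)
      = s * ((1 + ε) + u n + 2 * (1 / Real.log n + u n * (1 / s)) *
        (1 / ((1 - ε) - u n))) := by
    have a2 : (1 - ε) - u n ≠ 0 := hb.ne'
    have a3 : mu n = s * s / Real.log n := by rw [hss]; rfl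
    rw [a3]
    have a4 : Real.log n ≠ 0 := by linarith
    field_simp
  rw [eA, eB] at k2
  set A := (1 - q n) * (1 - (1 + ε) * lam n) with hAdef
  set B := (1 + ε) + u n + 2 * (1 / Real.log n + u n * (1 / s)) *
        (1 / ((1 - ε) - u n)) with hBdef
  have k3 : mu n * A * S0 (g n) f ≤ mu n * A * ((1 + 2 * ε) * (lam n * S1 (g n) f)) := by
    have a1 : s * B * S1 (g n) f ≤ s * ((1 + 2 * ε) * A) * S1 (g n) f :=
      mul_le_mul_of_nonneg_right (mul_le_mul_of_nonneg_left hev.le hspos.le) n1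
    have a2 : s * ((1 + 2 * ε) * A) * S1 (g n) f
        = mu n * A * ((1 + 2 * ε) * (lam n * S1 (g n) f)) := by
      rw [← hlm]; ring
    linarith
  exact le_of_mul_le_mul_left k3 (mul_pos hmu hA)

/-- (A3) -/
lemma A3 (hg : LawsZ g) : ∀ᶠ n : ℕ in atTop, ∀ f : ℕ,
    (f : ℝ) ≤ mu n - 7 / 8 * Real.sqrt n → lam n ^ 2 * S2 (g n) f ≤ 4 * S0 (g n) f := by
  obtain ⟨q, u, -, hu, hI⟩ := I123 hg
  filter_upwards [eventually_ge_atTop 3, hI,
    hu.eventually_lt_const (show (0 : ℝ) < 1 / 100 by norm_num),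
    t_lam.eventually_lt_const (show (0 : ℝ) < 1 by norm_num)]
    with n hn hI hu4 hlam f hf
  obtain ⟨m, hm1, hm2, hm0, -, hu0, hI⟩ := hI
  obtain ⟨i1, i2, -⟩ := hI f
  have hn2 : 2 ≤ n := by omega
  have hlm := lam_mul_mu hn2
  have hl := lam_nonneg n
  have n0 := S0_nn hg n f
  have n1 := S1_nn hg n f
  have n2 := S2_nn hg n f
  have hmp := mu_pos hn2
  have hnn : (3 : ℝ) ≤ n := by exact_mod_cast hn
  set s := Real.sqrt n with hs'
  have hspos : 0 < s := Real.sqrt_pos.mpr (by linarith)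
  have hus : u n * s ≤ 1 / 100 * s := mul_le_mul_of_nonneg_right hu4.le hspos.le
  have hus0 : 0 ≤ u n * s := mul_nonneg hu0 hspos.le
  set d := 7 / 8 * s - 1 / 100 * s with hd
  have hd0 : 0 < d := by rw [hd]; linarith
  have hdm : d ≤ m - f := by rw [hd]; linarith
  have k1 : d * S1 (g n) f ≤ (mu n + 1 / 100 * s) * S0 (g n) f := by
    have a1 : d * S1 (g n) f ≤ (m - f) * S1 (g n) f := mul_le_mul_of_nonneg_right hdm n1
    have a2 : m * S0 (g n) f ≤ (mu n + 1 / 100 * s) * S0 (g n) f :=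
      mul_le_mul_of_nonneg_right (by linarith) n0
    linarith
  have k2 : d * S2 (g n) f ≤ 2 * (mu n + 1 / 100 * s) * S1 (g n) f := by
    have a1 : d * S2 (g n) f ≤ (m - f) * S2 (g n) f := mul_le_mul_of_nonneg_right hdm n2
    have a2 : 2 * m * S1 (g n) f ≤ 2 * (mu n + 1 / 100 * s) * S1 (g n) f :=
      mul_le_mul_of_nonneg_right (by linarith) n1
    linarith
  have k3 : d ^ 2 * S2 (g n) f ≤ 2 * (mu n + 1 / 100 * s) ^ 2 * S0 (g n) f := by
    have a1 := mul_le_mul_of_nonneg_left k2 hd0.le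
    have a2 := mul_le_mul_of_nonneg_left k1 (by linarith : (0 : ℝ) ≤ 2 * (mu n + 1 / 100 * s))
    nlinarith
  have k4 : d ^ 2 * (lam n ^ 2 * S2 (g n) f) ≤ 2 * (s + 1 / 100 * s) ^ 2 * S0 (g n) f := by
    have := mul_le_mul_of_nonneg_left k3 (sq_nonneg (lam n))
    have e1 : lam n ^ 2 * (2 * (mu n + 1 / 100 * s) ^ 2 * S0 (g n) f) =
        2 * (s + lam n * (1 / 100 * s)) ^ 2 * S0 (g n) f := by
      have e2 : lam n * (mu n + 1 / 100 * s) = s + lam n * (1 / 100 * s) := by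
        rw [mul_add, hlm]
      rw [← e2]; ring
    rw [e1] at this
    have h7 : (s + lam n * (1 / 100 * s)) ^ 2 ≤ (s + 1 / 100 * s) ^ 2 := by
      refine pow_le_pow_left₀ (by positivity) ?_ 2
      nlinarith [mul_le_mul_of_nonneg_right hlam.le (by positivity : (0 : ℝ) ≤ 1 / 100 * s)]
    have h8 : 2 * (s + lam n * (1 / 100 * s)) ^ 2 * S0 (g n) f ≤
        2 * (s + 1 / 100 * s) ^ 2 * S0 (g n) f :=
      mul_le_mul_of_nonneg_right (by linarith) n0
    linarith
  have k5 : 2 * (s + 1 / 100 * s) ^ 2 ≤ d ^ 2 * 4 := by rw [hd]; nlinarith [sq_nonneg s]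
  have k6 : d ^ 2 * (lam n ^ 2 * S2 (g n) f) ≤ d ^ 2 * (4 * S0 (g n) f) := by
    have := mul_le_mul_of_nonneg_right k5 n0
    linarith
  exact le_of_mul_le_mul_left k6 (by positivity)

end laws

end Pool.Agent.CY53
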