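import Pool.Agent.CY53.Asym

/-! Asymptotic bounds for the laws, tails (as CR53/Asym, with an error `1` in the means). -/

set_option autoImplicit false

namespace Pool.Agent.CY53

open Finset Filter Topology Pool.Agent.CR53

section laws

variable {g : ℕ → ℕ → ℝ}

/-- (A4) -/
lemma A4 (hg : LawsZ g) {c κ : ℝ} (hc : 0 < c) (hκ : κ < c ^ 2 / 2) : ∀ᶠ n : ℕ in atTop, ∀ f : ℕ,
    (f : ℝ) ≤ mu n - c * Real.sqrt n → S0 (g n) f ≤ (n : ℝ) ^ (-κ) := by
  obtain ⟨T, wm, wp, e, hwp0, he, hev⟩ := hg.ex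
  have t1 : Tendsto (fun n : ℕ => (c - e n / Real.sqrt n - 2 * (1 / Real.sqrt n)) *
      (c - e n / Real.sqrt n - 3 * (1 / Real.sqrt n)) /
      (2 * (1 + e n / Real.sqrt n * lam n))) atTop
      (𝓝 ((c - 0 - 2 * 0) * (c - 0 - 3 * 0) / (2 * (1 + 0 * 0)))) := by
    refine (((tendsto_const_nhds.sub he).sub (t_invsqrt.const_mul 2)).mul
      ((tendsto_const_nhds.sub he).sub (t_invsqrt.const_mul 3))).div
      ((tendsto_const_nhds.add (he.mul t_lam)).const_mul 2) (by norm_num)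
  have e1 : κ < (c - 0 - 2 * 0) * (c - 0 - 3 * 0) / (2 * (1 + 0 * 0)) := by
    have : (c - 0 - 2 * 0) * (c - 0 - 3 * 0) / (2 * (1 + 0 * 0)) = c ^ 2 / 2 := by ring
    rw [this]; exact hκ
  filter_upwards [eventually_ge_atTop 3, t_sqrt.eventually_ge_atTop (6 / c),
    he.eventually_lt_const (show (0 : ℝ) < min (c / 4) (1 / 4) by positivity),
    t1.eventually_const_lt e1, hev, t_mu.eventually_ge_atTop 3,
    t_lam.eventually_lt_const (show (0 : ℝ) < 1 by norm_num)]
    with n hn hs hv hk hev hmu3 hlam f hf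
  obtain ⟨hr, hwm, -, he1, -, hab, hle, hd⟩ := hev
  rw [abs_le] at hab
  have hv1 : e n / Real.sqrt n < c / 4 := lt_of_lt_of_le hv (min_le_left _ _)
  have hv2 : e n / Real.sqrt n < 1 / 4 := lt_of_lt_of_le hv (min_le_right _ _)
  have hn2 : 2 ≤ n := by omega
  have hL := log_ge_one hn
  have hnn : (3 : ℝ) ≤ n := by exact_mod_cast hn
  have hlm := lam_mul_mu hn2
  set m := wm n * T n / (1 + wm n) with hm
  set s := Real.sqrt n with hs'
  have hss : s ^ 2 = n := Real.sq_sqrt (by linarith)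
  have hspos : 0 < s := Real.sqrt_pos.mpr (by linarith)
  obtain ⟨v, hvd⟩ : ∃ v, v = e n / s := ⟨_, rfl⟩
  rw [← hvd] at hk hv1 hv2
  have hes : e n = v * s := by rw [hvd]; field_simp
  have hv0 : 0 ≤ v := by rw [hvd]; positivity
  have hsm : s ≤ mu n := by
    rw [← hlm]
    nlinarith [mul_le_mul_of_nonneg_right hlam.le (by linarith : (0 : ℝ) ≤ mu n)]
  have hvs1 : v * s ≤ 1 / 4 * s := mul_le_mul_of_nonneg_right hv2.le hspos.le
  have hvs2 : v * s ≤ c / 4 * s := mul_le_mul_of_nonneg_right hv1.le hspos.le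
  have hm1 : mu n - v * s - 1 ≤ m := by linarith [hab.1]
  have hm2 : m ≤ mu n + v * s := by linarith [hab.2]
  have hmp : 0 < m := by linarith
  have hcs : 6 ≤ c * s := by
    have := mul_le_mul_of_nonneg_left hs hc.le
    rwa [mul_div_cancel₀ _ hc.ne'] at this
  set K := ⌊c * s - v * s - 1⌋₊ with hK
  have hK1 : (K : ℝ) ≤ c * s - v * s - 1 := Nat.floor_le (by linarith)
  have hK2 : c * s - v * s - 2 < K := by
    have := Nat.lt_floor_add_one (c * s - v * s - 1)
    linarith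
  have ch := S0_chernoff hr hwm K f (by rw [← hm]; linarith) (by rw [← hm]; exact hmp)
  rw [← hm] at ch
  have h1 : S0 (g n) f ≤ Real.exp (-(K * (K - 1) / (2 * m))) := by
    refine ch.trans ?_
    have := mul_le_mul_of_nonneg_left (S0_le_one hg n (f + K))
      (Real.exp_pos (-(K * ((K : ℝ) - 1) / (2 * m)))).le
    linarith
  refine h1.trans ?_
  rw [Real.rpow_def_of_pos (by linarith)]
  refine Real.exp_le_exp.mpr ?_
  have h2 : κ * Real.log n ≤ K * ((K : ℝ) - 1) / (2 * m) := by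
    have a1 : (c * s - v * s - 2) * (c * s - v * s - 3) / (2 * (mu n + v * s)) ≤
        K * ((K : ℝ) - 1) / (2 * m) := by
      refine div_le_div₀ ?_ ?_ (by linarith) (by linarith)
      · exact mul_nonneg (by linarith) (by linarith)
      · exact mul_le_mul (by linarith) (by linarith) (by linarith) (by linarith)
    have a2 : (c * s - v * s - 2) * (c * s - v * s - 3) / (2 * (mu n + v * s))
        = (c - v - 2 * (1 / s)) * (c - v - 3 * (1 / s)) / (2 * (1 + v * lam n)) *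
          Real.log n := by
      have a3 : Real.log n ≠ 0 := by linarith
      have a4 : mu n = s ^ 2 / Real.log n := by rw [hss]; rfl
      have a5 : lam n = Real.log n / s := rfl
      have a6 : 0 < s ^ 2 + v * s * Real.log n := by positivity
      have a7 : mu n + v * s = (s ^ 2 + v * s * Real.log n) / Real.log n := by
        rw [a4]; field_simp
      have a8 : 1 + v * lam n = (s ^ 2 + v * s * Real.log n) / s ^ 2 := by
        rw [a5]; field_simp
      rw [a7, a8]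
      have a9 : s ^ 2 + v * s * Real.log n ≠ 0 := a6.ne'
      have a10 : (c - v - 2 * (1 / s)) = (c * s - v * s - 2) / s := by field_simp
      have a11 : (c - v - 3 * (1 / s)) = (c * s - v * s - 3) / s := by field_simp
      rw [a10, a11]
      field_simp
    rw [a2] at a1
    refine le_trans ?_ a1
    exact mul_le_mul_of_nonneg_right hk.le (by linarith)
  linarith

/-- (A5) -/
lemma A5 (hg : LawsZ g) {η : ℝ} (h0 : 0 < η) (h1 : η < 1) : ∀ᶠ n : ℕ in atTop, ∀ f : ℕ,
    mu n - (1 - η) * Real.sqrt n ≤ (f : ℝ) + 1 → (n : ℝ) ^ (-((1 - η) / 2)) ≤ S0 (g n) f := by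
  obtain ⟨T, wm, wp, e, hwp0, he, hev⟩ := hg.ex
  -- normalised quantities: a = 1/√log n, b = 1/√n, l = lam n, v = e n/√n
  have tk : Tendsto (fun n : ℕ => (1 - η) + 3 * (e n / Real.sqrt n) + 2 * (1 / Real.sqrt n)
      + 2 * (1 / Real.sqrt (Real.log n))) atTop (𝓝 ((1 - η) + 3 * 0 + 2 * 0 + 2 * 0)) :=
    ((tendsto_const_nhds.add (he.const_mul 3)).add (t_invsqrt.const_mul 2)).add
      (t_invsqrtlog.const_mul 2)
  have tD : Tendsto (fun n : ℕ => 1 - 2 * (1 / Real.sqrt (Real.log n)) * lam n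
      - ((1 - η) + 3 * (e n / Real.sqrt n) + 2 * (1 / Real.sqrt n)
        + 2 * (1 / Real.sqrt (Real.log n))) * lam n
      - 3 * (e n / Real.sqrt n) * lam n) atTop
      (𝓝 (1 - 2 * 0 * 0 - ((1 - η) + 3 * 0 + 2 * 0 + 2 * 0) * 0 - 3 * 0 * 0)) :=
    ((tendsto_const_nhds.sub ((t_invsqrtlog.const_mul 2).mul t_lam)).sub (tk.mul t_lam)).sub
      ((he.const_mul 3).mul t_lam)
  have tN : Tendsto (fun n : ℕ => ((1 - η) + 3 * (e n / Real.sqrt n) + 2 * (1 / Real.sqrt n)
      + 2 * (1 / Real.sqrt (Real.log n))) *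
        (2 * (1 / Real.sqrt (Real.log n)) + 2 * (e n / Real.sqrt n) + 1 / Real.sqrt n)
      + ((1 - η) + 3 * (e n / Real.sqrt n) + 2 * (1 / Real.sqrt n)
        + 2 * (1 / Real.sqrt (Real.log n))) ^ 2 / 2) atTop
      (𝓝 (((1 - η) + 3 * 0 + 2 * 0 + 2 * 0) * (2 * 0 + 2 * 0 + 0)
        + ((1 - η) + 3 * 0 + 2 * 0 + 2 * 0) ^ 2 / 2)) :=
    (tk.mul (((t_invsqrtlog.const_mul 2).add (he.const_mul 2)).add t_invsqrt)).add
      ((tk.pow 2).div_const 2)
  have tw : Tendsto (fun n : ℕ => 1 + wp n) atTop (𝓝 (1 + 0)) :=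
    tendsto_const_nhds.add hwp0
  have tX := ((tw.div tD (by norm_num)).mul tN).add (t_invlog.const_mul (Real.log 2))
  have e1 : (1 + 0) / (1 - 2 * 0 * 0 - ((1 - η) + 3 * 0 + 2 * 0 + 2 * 0) * 0 - 3 * 0 * 0)
      * (((1 - η) + 3 * 0 + 2 * 0 + 2 * 0) * (2 * 0 + 2 * 0 + 0)
        + ((1 - η) + 3 * 0 + 2 * 0 + 2 * 0) ^ 2 / 2)
      + Real.log 2 * 0 < (1 - η) / 2 := by
    have : (1 + 0) / (1 - 2 * 0 * 0 - ((1 - η) + 3 * 0 + 2 * 0 + 2 * 0) * 0 - 3 * 0 * 0)
      * (((1 - η) + 3 * 0 + 2 * 0 + 2 * 0) * (2 * 0 + 2 * 0 + 0)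
        + ((1 - η) + 3 * 0 + 2 * 0 + 2 * 0) ^ 2 / 2)
      + Real.log 2 * 0 = (1 - η) ^ 2 / 2 := by norm_num
    rw [this]
    nlinarith
  filter_upwards [eventually_ge_atTop 3, tX.eventually_lt_const e1,
    tD.eventually_const_lt (show (0 : ℝ) < 1 - 2 * 0 * 0
      - ((1 - η) + 3 * 0 + 2 * 0 + 2 * 0) * 0 - 3 * 0 * 0 by norm_num),
    hev, t_mu.eventually_ge_atTop 3,
    he.eventually_lt_const (show (0 : ℝ) < 1 / 4 by norm_num),
    t_lam.eventually_lt_const (show (0 : ℝ) < 1 by norm_num)]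
    with n hn hX hD hev hmu3 hv2 hlam1 f hf
  obtain ⟨hr, hwm, hwp, he1, htot, hab, hle, hd⟩ := hev
  rw [abs_le] at hab
  simp only [Pi.div_apply] at hX
  have hn2 : 2 ≤ n := by omega
  have hmu := mu_pos hn2
  have hL := log_ge_one hn
  have hnn : (3 : ℝ) ≤ n := by exact_mod_cast hn
  have hlm := lam_mul_mu hn2
  set m := wp n * T n / (1 + wp n) with hm
  set s := Real.sqrt n with hs'
  have hss : s ^ 2 = n := Real.sq_sqrt (by linarith)
  have hspos : 0 < s := Real.sqrt_pos.mpr (by linarith)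
  set r := Real.sqrt (Real.log n) with hr'
  have hrr : r ^ 2 = Real.log n := Real.sq_sqrt (by linarith)
  have hrpos : 0 < r := Real.sqrt_pos.mpr (by linarith)
  obtain ⟨v, hvd⟩ : ∃ v, v = e n / s := ⟨_, rfl⟩
  rw [← hvd] at hX hD hv2
  have hes : e n = v * s := by rw [hvd]; field_simp
  have hv0 : 0 ≤ v := by rw [hvd]; positivity
  have hvs1 : v * s ≤ 1 / 4 * s := mul_le_mul_of_nonneg_right hv2.le hspos.le
  have hvs0 : 1 ≤ v * s := by rw [← hes]; exact he1
  have hsm : s ≤ mu n := by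
    rw [← hlm]
    nlinarith [mul_le_mul_of_nonneg_right hlam1.le hmu.le]
  have hm1 : mu n - v * s ≤ m := by linarith [hab.1]
  have hm2 : m ≤ mu n + v * s := by linarith [hab.2]
  have hmp : 0 < m := by linarith
  have hsmu : Real.sqrt (mu n) = s / r := by
    unfold mu
    rw [Real.sqrt_div (by linarith)]
  have hsr : 0 < s / r := div_pos hspos hrpos
  have hσ : Real.sqrt m ≤ s / r + v * s := by
    rw [← hsmu]
    have a1 : Real.sqrt m ≤ Real.sqrt (mu n + v * s) := Real.sqrt_le_sqrt hm2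
    have a2 : Real.sqrt (mu n + v * s) ≤ Real.sqrt (mu n) + v * s := by
      rw [Real.sqrt_le_left (by positivity)]
      have := Real.sq_sqrt hmu.le
      have h5 := Real.sqrt_nonneg (mu n)
      have h6 : v * s ≤ (v * s) ^ 2 := by nlinarith
      nlinarith [mul_nonneg h5 (by linarith : (0 : ℝ) ≤ v * s)]
    linarith
  have hσ0 : 0 ≤ Real.sqrt m := Real.sqrt_nonneg m
  have hmu2 : mu n = s ^ 2 / r ^ 2 := by unfold mu; rw [hss, hrr]
  have hlam : lam n = r ^ 2 / s := by unfold lam; rw [hrr]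
  rw [hlam] at hX hD
  set k := (1 - η) + 3 * v + 2 * (1 / s) + 2 * (1 / r) with hk
  set D := 1 - 2 * (1 / r) * (r ^ 2 / s) - k * (r ^ 2 / s) - 3 * v * (r ^ 2 / s) with hDdef
  set K := ⌈(1 - η) * s + 1 + 3 * (v * s) + 2 * (s / r)⌉₊ with hK
  have hbase : 0 ≤ (1 - η) * s + 1 + 3 * (v * s) + 2 * (s / r) := by
    have : 0 ≤ (1 - η) * s := mul_nonneg (by linarith) hspos.le
    linarith
  have hK1 : (1 - η) * s + 1 + 3 * (v * s) + 2 * (s / r) ≤ K := Nat.le_ceil _
  have hK2 : (K : ℝ) ≤ k * s := by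
    have := (Nat.ceil_lt_add_one hbase).le
    rw [← hK] at this
    refine this.trans (le_of_eq ?_)
    rw [hk]; field_simp; ring
  have hk0 : 0 ≤ k := by
    rw [hk]
    have : 0 < 1 / s := by positivity
    have : 0 < 1 / r := by positivity
    linarith
  -- D * mu = mu - 2 √mu - k s - 3 v s
  have hDmu : D * mu n = mu n - 2 * (s / r) - k * s - 3 * (v * s) := by
    rw [hDdef, hmu2]; field_simp
  have hDmu0 : 0 < D * mu n := mul_pos hD hmu
  have low := S0_lower hr hwm hwp (T n) rfl htot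
    (by rw [← hm]; exact hd) (by rw [← hm]; exact hmp) f K
    (by rw [← hm]; linarith) (by rw [← hm]; linarith)
  rw [← hm] at low
  refine le_trans ?_ low
  have hx : (1 + wp n) / (m - 2 * Real.sqrt m - K + 1)
      * (K * (2 * Real.sqrt m + 1) + (K : ℝ) ^ 2 / 2) + Real.log 2 ≤
      (1 - η) / 2 * Real.log n := by
    have c1 : (1 + wp n) / (m - 2 * Real.sqrt m - K + 1)
        ≤ (1 + wp n) / (D * mu n) :=
      div_le_div_of_nonneg_left (by linarith) hDmu0 (by rw [hDmu]; linarith)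
    have hKnn : (0 : ℝ) ≤ K := Nat.cast_nonneg K
    have c2 : (K : ℝ) * (2 * Real.sqrt m + 1) + (K : ℝ) ^ 2 / 2
        ≤ (k * s) * (2 * (s / r) + 2 * (v * s) + 1) + (k * s) ^ 2 / 2 := by
      have d1 : (K : ℝ) * (2 * Real.sqrt m + 1) ≤ (k * s) * (2 * (s / r) + 2 * (v * s) + 1) :=
        mul_le_mul hK2 (by linarith) (by linarith) (mul_nonneg hk0 hspos.le)
      have d2 : (K : ℝ) ^ 2 ≤ (k * s) ^ 2 := pow_le_pow_left₀ hKnn hK2 2
      linarith
    have c3 : (1 + wp n) / (m - 2 * Real.sqrt m - K + 1)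
        * (K * (2 * Real.sqrt m + 1) + (K : ℝ) ^ 2 / 2)
        ≤ (1 + wp n) / (D * mu n)
          * ((k * s) * (2 * (s / r) + 2 * (v * s) + 1) + (k * s) ^ 2 / 2) := by
      refine mul_le_mul c1 c2 (by positivity) (div_nonneg (by linarith) hDmu0.le)
    have c4 : (1 + wp n) / (D * mu n)
          * ((k * s) * (2 * (s / r) + 2 * (v * s) + 1) + (k * s) ^ 2 / 2)
        = (1 + wp n) / D * (k * (2 * (1 / r) + 2 * v + 1 / s) + k ^ 2 / 2)
          * Real.log n := by
      rw [hmu2, ← hrr]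
      have : D ≠ 0 := hD.ne'
      field_simp
    have c5 : Real.log 2 = Real.log 2 * (1 / Real.log n) * Real.log n := by
      field_simp
    rw [c4] at c3
    have c6 := mul_le_mul_of_nonneg_right hX.le (by linarith : (0 : ℝ) ≤ Real.log n)
    rw [add_mul] at c6
    linarith
  rw [Real.rpow_def_of_pos (by linarith)]
  have e2 : (1 : ℝ) / 2 = Real.exp (-Real.log 2) := by
    rw [Real.exp_neg, Real.exp_log (by norm_num)]; norm_num
  rw [e2, ← Real.exp_add]
  refine Real.exp_le_exp.mpr ?_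
  linarith

end laws

end Pool.Agent.CY53
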