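import Pool.Agent.CY53.Ltwo
import Pool.Agent.CR53.Main

/-! %s -/

set_option autoImplicit false

namespace Pool.Agent.CY53

open MeasureTheory ProbabilityTheory Filter Topology Finset Pool.Agent.CR53

variable {Ω : Type*} [mΩ : MeasurableSpace Ω] {μ : Measure Ω} {E : ℕ → Set Ω}


theorem core {N : ℕ → ℕ} {g : ℕ → ℕ → ℝ} (hg : LawsZ g)
    (hup : ∀ k : ℕ, ∀ᶠ n : ℕ in atTop,
      (fut N (n + 1) : ℝ) ≤ mu n - (1 - 1 / ((k : ℝ) + 5)) * Real.sqrt n)
    (hlo : ∀ᶠ n : ℕ in atTop, mu n - 3 * Real.sqrt n < (N n : ℝ))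
    (h1 : Tendsto (fun i : ℕ => (∑ n ∈ range (i ^ 16),
      (psi1 n (N n) (fut N (n + 1)) - S0 (g n) (fut N (n + 1)))) / (i : ℝ) ^ 8) atTop (𝓝 0))
    (h2 : Tendsto (fun i : ℕ => (∑ n ∈ range (i ^ 16),
      (psi2 n (N n) (fut N (n + 1)) - lam n * S1 (g n) (fut N (n + 1)))) / (i : ℝ) ^ 8)
      atTop (𝓝 0)) :
    {k | IsRec N k}.Infinite ∧
      Tendsto (fun n : ℕ => (recSeq N n : ℝ) / (n : ℝ) ^ 2) atTop (𝓝 (1 / 4)) := by
  classical
  -- asymptotics of the future minimum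
  have hup0 : ∀ᶠ n : ℕ in atTop, (fut N (n + 1) : ℝ) ≤ mu n := by
    filter_upwards [hup 0] with n hn
    have hs := Real.sqrt_nonneg (n : ℝ)
    have : (0 : ℝ) ≤ (1 - 1 / (((0 : ℕ) : ℝ) + 5)) * Real.sqrt n :=
      mul_nonneg (by norm_num) hs
    linarith
  have hF := fut_asym hup0 hlo
  have hv := (vsum (F := fun n => (fut N n : ℝ)) hF).comp t_i16
  have hv' : Tendsto (fun i : ℕ => (∑ n ∈ range (i ^ 16), psi2 n (N n) (fut N (n + 1)))
      / (i : ℝ) ^ 8) atTop (𝓝 2) := by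
    refine hv.congr fun i => ?_
    simp only [Function.comp]
    rw [sqrt_pow16]
    congr 1
    exact sum_congr rfl fun n _ => (psi2_eq N n).symm
  have hR : Tendsto (fun i : ℕ => (∑ n ∈ range (i ^ 16), lam n * S1 (g n) (fut N (n + 1)))
      / (i : ℝ) ^ 8) atTop (𝓝 2) := by
    have h3 := hv'.sub h2
    rw [sub_zero] at h3
    refine h3.congr fun i => ?_
    rw [sum_sub_distrib, ← sub_div]
    congr 1
    ring
  have hH : Tendsto (fun i : ℕ => (∑ n ∈ range (i ^ 16), S0 (g n) (fut N (n + 1)))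
      / (i : ℝ) ^ 8) atTop (𝓝 2) := by
    refine sandwich (R := fun n => lam n * S1 (g n) (fut N (n + 1))) (fun ε h0 hε => ?_) hR
    obtain ⟨k, hk⟩ := exists_nat_one_div_lt h0
    filter_upwards [hup k, A1 hg h0 hε, A2 hg h0 hε,
      A4 hg (c := 1 + ε) (κ := 1 / 2 + ε / 2) (by linarith) (by nlinarith)]
      with n hn hA1 hA2 hA4
    have hle : (fut N (n + 1) : ℝ) ≤ mu n - (1 - ε) * Real.sqrt n := by
      refine hn.trans ?_
      have h5 : 1 / ((k : ℝ) + 5) ≤ ε := by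
        refine le_trans ?_ hk.le
        exact one_div_le_one_div_of_le (by positivity) (by linarith)
      have h6 : (1 - ε) * Real.sqrt n ≤ (1 - 1 / ((k : ℝ) + 5)) * Real.sqrt n :=
        mul_le_mul_of_nonneg_right (by linarith) (Real.sqrt_nonneg _)
      linarith
    refine ⟨hA1 _ hle, ?_⟩
    rcases le_total (mu n - (1 + ε) * Real.sqrt n) (fut N (n + 1) : ℝ) with hc | hc
    · have h7 := hA2 _ hle hc
      have h8 : (0 : ℝ) ≤ (n : ℝ) ^ (-(1 / 2 + ε / 2)) := Real.rpow_nonneg (Nat.cast_nonneg n) _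
      linarith
    · have h7 := hA4 _ hc
      have h8 : 0 ≤ (1 + 2 * ε) * (lam n * S1 (g n) (fut N (n + 1))) :=
        mul_nonneg (by linarith) (mul_nonneg (lam_nonneg n) (S1_nn hg n _))
      linarith
  have hC : Tendsto (fun i : ℕ => (∑ n ∈ range (i ^ 16), psi1 n (N n) (fut N (n + 1)))
      / (i : ℝ) ^ 8) atTop (𝓝 2) := by
    have h3 := h1.add hH
    rw [zero_add] at h3
    refine h3.congr fun i => ?_
    rw [sum_sub_distrib, ← add_div]
    congr 1
    ring
  have hnn : ∀ n, 0 ≤ psi1 n (N n) (fut N (n + 1)) := by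
    intro n; unfold psi1; split_ifs <;> norm_num
  have hu := interp (u := fun x => ∑ n ∈ range x, psi1 n (N n) (fut N (n + 1)))
    (fun a b hab => sum_le_sum_of_subset_of_nonneg (range_subset_range.mpr hab)
      (fun n _ _ => hnn n)) (fun x => sum_nonneg fun n _ => hnn n) hC
  -- relation with the number of records
  have hcount : Tendsto (fun x : ℕ => (Nat.count (IsRec N) x : ℝ) / Real.sqrt x) atTop (𝓝 2) := by
    have h3 : Tendsto (fun x : ℕ => psi1 0 (N 0) (fut N (0 + 1)) / Real.sqrt x) atTop (𝓝 0) :=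
      tendsto_const_nhds.div_atTop t_sqrt
    have h4 := hu.sub h3
    rw [sub_zero] at h4
    refine h4.congr' ?_
    filter_upwards [eventually_ge_atTop 1] with x hx
    rw [← sub_div]
    congr 1
    rw [Nat.count_eq_card_filter_range, card_filter]
    push_cast
    have e1 : ∀ f : ℕ → ℝ, ∑ n ∈ range x, f n = f 0 + ∑ n ∈ Ico 1 x, f n := by
      intro f
      rw [range_eq_Ico, sum_eq_sum_Ico_succ_bot (by omega)]
    rw [e1 (fun n => psi1 n (N n) (fut N (n + 1))), e1 (fun n => if IsRec N n then (1 : ℝ) else 0)]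
    have e2 : ¬ IsRec N 0 := fun h => by have := h.1; omega
    rw [if_neg e2]
    have e3 : ∑ n ∈ Ico 1 x, psi1 n (N n) (fut N (n + 1))
        = ∑ n ∈ Ico 1 x, (if IsRec N n then (1 : ℝ) else 0) := by
      refine sum_congr rfl fun n hn => ?_
      have hn1 : 1 ≤ n := (mem_Ico.mp hn).1
      unfold psi1
      by_cases hc : IsRec N n
      · rw [if_pos hc, if_pos ((isRec_iff hn1).1 hc)]
      · rw [if_neg hc, if_neg (fun hh => hc ((isRec_iff hn1).2 hh))]
    rw [e3]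
    ring
  exact seq_of_count hcount

theorem model_main [IsProbabilityMeasure μ] (hE : ∀ m, MeasurableSet (E m))
    (hi : iIndepSet E μ) (hg : LawsZ (fun n => law μ E (blk n))) :
    ∀ᵐ ω ∂μ, Q1 (sqCount {m | ω ∈ E m}) ∧
      Tendsto (fun n : ℕ => (recSeq (sqCount {m | ω ∈ E m}) n : ℝ) / (n : ℝ) ^ 2) atTop
        (𝓝 (1 / 4)) := by
  have hup : ∀ᵐ ω ∂μ, ∀ k : ℕ, ∀ᶠ n : ℕ in atTop,
      (FF E (n + 1) ω : ℝ) ≤ mu n - (1 - 1 / ((k : ℝ) + 5)) * Real.sqrt n := by
    rw [ae_all_iff]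
    intro k
    refine as_upper hE hi hg (by positivity) ?_
    rw [div_lt_one (by positivity)]
    have : (0 : ℝ) ≤ k := Nat.cast_nonneg k
    linarith
  filter_upwards [hup, as_lower hE hg, as_one hE hi hg, as_two hE hi hg] with ω h1 h2 h3 h4
  have hN : (fun n => NN E n ω) = sqCount {m | ω ∈ E m} := by
    funext n
    exact (sqCount_eq ω n).symm
  have hc := core (N := fun n => NN E n ω) hg h1 h2 h3 h4
  rw [hN] at hc
  exact ⟨q1_of_core hc.1 hc.2, hc.2⟩

end Pool.Agent.CY53
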