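import Pool.Agent.CR53.Asym

/-! The family of laws used for the sieved model: as `Laws` in CR53/Defs, with a number of trials `T n` and odds
`wm n`, `wp n` for which the mean is `n / log n` up to `e n = o(√n)`. -/

set_option autoImplicit false

namespace Pool.Agent.CY53

open Finset Filter Topology Pool.Agent.CR53

/-- the ratio laws with approximate mean `n / log n` -/
structure LawsZ (g : ℕ → ℕ → ℝ) : Prop where
  nonneg : ∀ n i, 0 ≤ g n i
  zero : ∀ n i, 2 * n < i → g n i = 0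
  total : ∀ n, ∑ i ∈ Finset.range (2 * n + 1), g n i = 1
  ex : ∃ (T : ℕ → ℕ) (wm wp e : ℕ → ℝ), Tendsto wp atTop (𝓝 0) ∧
    Tendsto (fun n : ℕ => e n / Real.sqrt n) atTop (𝓝 0) ∧ ∀ᶠ n : ℕ in atTop,
    Ratio (g n) (T n) (wm n) (wp n) ∧ 0 < wm n ∧ 0 < wp n ∧ 1 ≤ e n ∧
      ∑ i ∈ Finset.range (T n + 1), g n i = 1 ∧
      |wp n * T n / (1 + wp n) - mu n| ≤ e n ∧
      wm n * T n / (1 + wm n) ≤ wp n * T n / (1 + wp n) ∧
      wp n * T n / (1 + wp n) - wm n * T n / (1 + wm n) ≤ 1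

end Pool.Agent.CY53
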