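import Pool.Agent.CY53.Tail
import Pool.Agent.CR53.Ltwo

/-! %s -/

set_option autoImplicit false

namespace Pool.Agent.CY53

open MeasureTheory ProbabilityTheory Filter Topology Finset Pool.Agent.CR53

variable {Ω : Type*} [mΩ : MeasurableSpace Ω] {μ : Measure Ω} {E : ℕ → Set Ω}

section main

variable [IsProbabilityMeasure μ] (hE : ∀ m, MeasurableSet (E m)) (hi : iIndepSet E μ)
  (hg : LawsZ (fun n => law μ E (blk n))) {ψ : ℕ → ℕ → ℕ → ℝ} {Cb : ℕ → ℝ}
  (hψ : ∀ n i f, f ≤ 2 * (n + 1) → |ψ n i f| ≤ Cb n)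

include hE hi hg hψ in
theorem as_DD {C : ℝ} (hC : 0 ≤ C)
    (hV : ∀ᶠ n : ℕ in atTop, ∫ ω, avg (law μ E (blk n)) n (fun i => ψ n i (FF E (n + 1) ω) ^ 2) ∂μ
      ≤ C * (n : ℝ) ^ (-(1 / 4 : ℝ))) :
    ∀ᵐ ω ∂μ, Tendsto (fun i : ℕ => (∑ n ∈ range (i ^ 16), DD μ E ψ n ω) / (i : ℝ) ^ 8)
      atTop (𝓝 0) := by
  obtain ⟨n1, hn1⟩ := eventually_atTop.mp hV
  set n0 := n1 + 1 with hn0
  set X : ℕ → Ω → ℝ := fun i ω => WW μ E ψ n0 (i ^ 16 - n0) ω / (i : ℝ) ^ 8 with hX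
  have hWm : ∀ k, Measurable (WW μ E ψ n0 k) := fun k =>
    (WW_meas (μ := μ) (E := E) (S := Set.Ioi (n0 ^ 2)) subset_rfl k ψ).mono (sig_le hE _) le_rfl
  have hXm : ∀ i, Measurable (X i) := fun i => (hWm _).div_const _
  have hXi : ∀ i, Integrable (fun ω => X i ω ^ 2) μ := by
    intro i
    refine int_of_bdd ((hXm i).pow_const 2)
      (C := ((∑ n ∈ Ico n0 (n0 + (i ^ 16 - n0)), 2 * Cb n) / |(i : ℝ) ^ 8|) ^ 2) fun ω => ?_
    rw [abs_pow, hX]
    simp only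
    rw [abs_div]
    refine pow_le_pow_left₀ (by positivity) ?_ 2
    exact div_le_div_of_nonneg_right (WW_bdd (μ := μ) (E := E) hg hψ n0 _ ω) (abs_nonneg _)
  have hXb : ∀ i : ℕ, 1 ≤ i → ∫ ω, X i ω ^ 2 ∂μ ≤ (2 * C) / (i : ℝ) ^ 2 := by
    intro i hi1
    have hir : (1 : ℝ) ≤ i := by exact_mod_cast hi1
    have h1 := second_moment_sum (μ := μ) (E := E) hE hi hg hψ (i ^ 16 - n0) n0
    have h2 : ∑ n ∈ Ico n0 (n0 + (i ^ 16 - n0)),
        ∫ ω, avg (law μ E (blk n)) n (fun i => ψ n i (FF E (n + 1) ω) ^ 2) ∂μ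
        ≤ C * (2 * (i : ℝ) ^ 14) := by
      refine le_trans ?_ (mul_le_mul_of_nonneg_left (sum_quarter n0 i hi1 (by omega)) hC)
      rw [mul_sum]
      exact sum_le_sum fun n hn => hn1 n (by have := (mem_Ico.mp hn).1; omega)
    have h3 : ∀ ω, X i ω ^ 2 = WW μ E ψ n0 (i ^ 16 - n0) ω ^ 2 * ((i : ℝ) ^ 16)⁻¹ := by
      intro ω
      rw [hX]
      simp only
      rw [div_pow, ← pow_mul, div_eq_mul_inv]
    simp only [h3]
    rw [integral_mul_const]
    have h4 : 0 ≤ ((i : ℝ) ^ 16)⁻¹ := by positivity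
    refine (mul_le_mul_of_nonneg_right (h1.trans h2) h4).trans (le_of_eq ?_)
    field_simp
  filter_upwards [as_tendsto hXm hXi hXb] with ω hω
  have hc : Tendsto (fun i : ℕ => (∑ n ∈ range n0, DD μ E ψ n ω) / (i : ℝ) ^ 8) atTop (𝓝 0) := by
    refine tendsto_const_nhds.div_atTop ?_
    exact (tendsto_pow_atTop (by norm_num)).comp tendsto_natCast_atTop_atTop
  have hsum := hc.add hω
  rw [add_zero] at hsum
  refine hsum.congr' ?_
  filter_upwards [eventually_ge_atTop n0, eventually_ge_atTop 1] with i hi1 hi2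
  have hle : n0 ≤ i ^ 16 := hi1.trans (Nat.le_self_pow (by norm_num) i)
  rw [hX]
  simp only
  unfold WW
  rw [← add_div, Nat.add_sub_cancel' hle]
  congr 1
  rw [sum_range_add_sum_Ico _ hle]

end main

lemma avg_ind {g : ℕ → ℕ → ℝ} (hg : LawsZ g) (n f : ℕ) (φ : ℕ → ℝ) :
    avg (g n) n (fun i => if i ≤ f then φ i else 0) = ∑ i ∈ range (f + 1), φ i * g n i := by
  have h1 : avg (g n) n (fun i => if i ≤ f then φ i else 0)
      = ∑ i ∈ range (2 * n + f + 2), (if i ≤ f then φ i * g n i else 0) := by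
    unfold avg
    rw [← sum_subset (range_subset_range.mpr (show 2 * n + 1 ≤ 2 * n + f + 2 by omega))]
    · refine sum_congr rfl fun i _ => ?_
      by_cases hc : i ≤ f
      · simp only [hc, if_true]; ring
      · simp only [hc, if_false]; ring
    · intro i _ hi
      have : 2 * n < i := by rw [mem_range] at hi; omega
      rw [hg.zero n i this]
      simp
  rw [h1, ← sum_subset (range_subset_range.mpr (show f + 1 ≤ 2 * n + f + 2 by omega))]
  · refine sum_congr rfl fun i hi => ?_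
    rw [mem_range] at hi
    rw [if_pos (by omega)]
  · intro i _ hi
    rw [mem_range] at hi
    rw [if_neg (by omega)]

lemma avg_psi1 {g : ℕ → ℕ → ℝ} (hg : LawsZ g) (n f : ℕ) :
    avg (g n) n (fun i => psi1 n i f) = S0 (g n) f := by
  unfold psi1 S0
  rw [avg_ind hg n f (fun _ => 1)]
  simp

lemma avg_psi1_sq {g : ℕ → ℕ → ℝ} (hg : LawsZ g) (n f : ℕ) :
    avg (g n) n (fun i => psi1 n i f ^ 2) = S0 (g n) f := by
  rw [← avg_psi1 hg]
  congr 1
  funext i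
  unfold psi1
  split_ifs <;> norm_num

lemma avg_psi2 {g : ℕ → ℕ → ℝ} (hg : LawsZ g) (n f : ℕ) :
    avg (g n) n (fun i => psi2 n i f) = lam n * S1 (g n) f := by
  unfold psi2 S1
  rw [avg_ind hg n f (fun i => lam n * ((f : ℝ) - i)), mul_sum]
  exact sum_congr rfl fun i _ => by ring

lemma avg_psi2_sq {g : ℕ → ℕ → ℝ} (hg : LawsZ g) (n f : ℕ) :
    avg (g n) n (fun i => psi2 n i f ^ 2) = lam n ^ 2 * S2 (g n) f := by
  have h1 : (fun i => psi2 n i f ^ 2)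
      = fun i => if i ≤ f then (lam n * ((f : ℝ) - i)) ^ 2 else 0 := by
    funext i
    unfold psi2
    split_ifs
    · rfl
    · norm_num
  rw [h1, avg_ind hg n f (fun i => (lam n * ((f : ℝ) - i)) ^ 2)]
  unfold S2
  rw [mul_sum]
  exact sum_congr rfl fun i _ => by ring

section main2

variable [IsProbabilityMeasure μ] (hE : ∀ m, MeasurableSet (E m)) (hi : iIndepSet E μ)
  (hg : LawsZ (fun n => law μ E (blk n)))

include hE in
omit [IsProbabilityMeasure μ] in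
lemma FF_meas' (n : ℕ) : Measurable (FF E n) :=
  (FF_meas (E := E) (n := n) (S := Set.Ioi (n ^ 2)) subset_rfl).mono (sig_le hE _) le_rfl

include hE hi hg in
lemma V1 : ∀ᶠ n : ℕ in atTop,
    ∫ ω, avg (law μ E (blk n)) n (fun i => psi1 n i (FF E (n + 1) ω) ^ 2) ∂μ
      ≤ 20 * (n : ℝ) ^ (-(1 / 4 : ℝ)) := by
  filter_upwards [tail_bound hE hi hg (ε := 1 / 8) (by norm_num) (by norm_num),
    A4 hg (c := 7 / 8) (κ := 1 / 4) (by norm_num) (by norm_num), eventually_ge_atTop 1]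
    with n hn hA h1
  have hn1 : (1 : ℝ) ≤ n := by exact_mod_cast h1
  have e : ∀ ω, avg (law μ E (blk n)) n (fun i => psi1 n i (FF E (n + 1) ω) ^ 2)
      = S0 (law μ E (blk n)) (FF E (n + 1) ω) := fun ω => avg_psi1_sq hg n _
  simp only [e]
  have hX : Integrable (fun ω => S0 (law μ E (blk n)) (FF E (n + 1) ω)) μ := by
    refine int_of_bdd (disc1 (fun f => S0 (law μ E (blk n)) f) (FF_meas' hE (n + 1))) (C := 1)
      fun ω => ?_
    rw [abs_of_nonneg (S0_nn hg n _)]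
    exact S0_le_one hg n _
  have h2 := exp_bound (bad_meas hE (1 / 8) n) hX (a := (n : ℝ) ^ (-(1 / 4 : ℝ))) (b := 1)
    (Real.rpow_nonneg (by linarith) _) (fun ω hω => by
      refine hA _ ?_
      by_contra hc
      push Not at hc
      refine hω ?_
      show mu n - (1 - 1 / 8) * Real.sqrt n < (FF E (n + 1) ω : ℝ)
      have e2 : (1 : ℝ) - 1 / 8 = 7 / 8 := by norm_num
      rw [e2]; exact hc) (fun ω => S0_le_one hg n _)
  have h3 : (n : ℝ) ^ (-(4 : ℝ)) ≤ (n : ℝ) ^ (-(1 / 4 : ℝ)) :=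
    Real.rpow_le_rpow_of_exponent_le hn1 (by norm_num)
  have h4 : 0 ≤ (n : ℝ) ^ (-(1 / 4 : ℝ)) := Real.rpow_nonneg (by linarith) _
  linarith

include hE hi hg in
lemma V2 : ∀ᶠ n : ℕ in atTop,
    ∫ ω, avg (law μ E (blk n)) n (fun i => psi2 n i (FF E (n + 1) ω) ^ 2) ∂μ
      ≤ 20 * (n : ℝ) ^ (-(1 / 4 : ℝ)) := by
  filter_upwards [tail_bound hE hi hg (ε := 1 / 8) (by norm_num) (by norm_num),
    A4 hg (c := 7 / 8) (κ := 1 / 4) (by norm_num) (by norm_num), A3 hg, eventually_ge_atTop 1,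
    t_lam.eventually_lt_const (show (0 : ℝ) < 1 by norm_num)]
    with n hn hA hA3 h1 hlam
  have hn1 : (1 : ℝ) ≤ n := by exact_mod_cast h1
  have hl0 := lam_nonneg n
  have e : ∀ ω, avg (law μ E (blk n)) n (fun i => psi2 n i (FF E (n + 1) ω) ^ 2)
      = lam n ^ 2 * S2 (law μ E (blk n)) (FF E (n + 1) ω) := fun ω => avg_psi2_sq hg n _
  simp only [e]
  have hbd : ∀ ω, lam n ^ 2 * S2 (law μ E (blk n)) (FF E (n + 1) ω) ≤ 16 * (n : ℝ) ^ 2 := by
    intro ω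
    have h3 := S2_le hg n (FF E (n + 1) ω)
    have h4 : (FF E (n + 1) ω : ℝ) ≤ 4 * n := by
      have h5 := FF_le (E := E) (n + 1) ω
      have : (FF E (n + 1) ω : ℝ) ≤ 2 * (n + 1) := by exact_mod_cast h5
      linarith
    have h6 : (FF E (n + 1) ω : ℝ) ^ 2 ≤ (4 * n) ^ 2 :=
      pow_le_pow_left₀ (Nat.cast_nonneg _) h4 2
    have h7 : lam n ^ 2 ≤ 1 := pow_le_one₀ hl0 hlam.le
    have h8 := mul_le_mul h7 (h3.trans h6) (S2_nn hg n _) zero_le_one
    linarith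
  have hX : Integrable (fun ω => lam n ^ 2 * S2 (law μ E (blk n)) (FF E (n + 1) ω)) μ := by
    refine int_of_bdd (disc1 (fun f => lam n ^ 2 * S2 (law μ E (blk n)) f)
      (FF_meas' hE (n + 1))) (C := 16 * (n : ℝ) ^ 2) fun ω => ?_
    rw [abs_of_nonneg (mul_nonneg (sq_nonneg _) (S2_nn hg n _))]
    exact hbd ω
  have h2 := exp_bound (bad_meas hE (1 / 8) n) hX (a := 4 * (n : ℝ) ^ (-(1 / 4 : ℝ)))
    (b := 16 * (n : ℝ) ^ 2)
    (mul_nonneg (by norm_num) (Real.rpow_nonneg (by linarith) _)) (fun ω hω => by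
      have hc' : (FF E (n + 1) ω : ℝ) ≤ mu n - 7 / 8 * Real.sqrt n := by
        by_contra hc
        push Not at hc
        refine hω ?_
        show mu n - (1 - 1 / 8) * Real.sqrt n < (FF E (n + 1) ω : ℝ)
        have e2 : (1 : ℝ) - 1 / 8 = 7 / 8 := by norm_num
        rw [e2]; exact hc
      have a1 := hA3 _ hc'
      have a2 := hA _ hc'
      linarith) hbd
  have h3 : (n : ℝ) ^ 2 * (n : ℝ) ^ (-(4 : ℝ)) ≤ (n : ℝ) ^ (-(1 / 4 : ℝ)) := by
    rw [← Real.rpow_natCast (n : ℝ) 2, ← Real.rpow_add (by linarith)]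
    exact Real.rpow_le_rpow_of_exponent_le hn1 (by norm_num)
  have h4 : 0 ≤ (n : ℝ) ^ (-(1 / 4 : ℝ)) := Real.rpow_nonneg (by linarith) _
  have h5 : 16 * (n : ℝ) ^ 2 * μ.real (bad E (1 / 8) n)
      ≤ 16 * (n : ℝ) ^ 2 * (n : ℝ) ^ (-(4 : ℝ)) := mul_le_mul_of_nonneg_left hn (by positivity)
  linarith

include hE hi hg in
/-- counts minus averages -/
theorem as_one : ∀ᵐ ω ∂μ, Tendsto (fun i : ℕ => (∑ n ∈ range (i ^ 16),
    (psi1 n (NN E n ω) (FF E (n + 1) ω) - S0 (law μ E (blk n)) (FF E (n + 1) ω))) / (i : ℝ) ^ 8)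
      atTop (𝓝 0) := by
  have h := as_DD (μ := μ) (E := E) hE hi hg (ψ := psi1) (Cb := fun _ => 1)
    (fun n i f _ => psi1_bdd n i f) (C := 20) (by norm_num) (V1 hE hi hg)
  filter_upwards [h] with ω hω
  refine hω.congr fun i => ?_
  congr 1
  refine sum_congr rfl fun n _ => ?_
  unfold DD
  rw [avg_psi1 hg n]

include hE hi hg in
/-- increments minus averages -/
theorem as_two : ∀ᵐ ω ∂μ, Tendsto (fun i : ℕ => (∑ n ∈ range (i ^ 16),
    (psi2 n (NN E n ω) (FF E (n + 1) ω)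
      - lam n * S1 (law μ E (blk n)) (FF E (n + 1) ω))) / (i : ℝ) ^ 8)
      atTop (𝓝 0) := by
  have h := as_DD (μ := μ) (E := E) hE hi hg (ψ := psi2) (Cb := fun n => lam n * (2 * (n + 1)))
    (fun n i f hf => psi2_bdd n i f hf) (C := 20) (by norm_num) (V2 hE hi hg)
  filter_upwards [h] with ω hω
  refine hω.congr fun i => ?_
  congr 1
  refine sum_congr rfl fun n _ => ?_
  unfold DD
  rw [avg_psi2 hg n]

end main2


end Pool.Agent.CY53
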