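import Pool.Agent.CY53.Core
import Pool.Agent.RG88.CopCnt
import Pool.Agent.GM53.Mert

/-! The laws of the sieved model; the sieving limit `y n` is constant between consecutive squares. -/

set_option autoImplicit false

namespace Pool.Agent.CY53

open MeasureTheory ProbabilityTheory Filter Topology Finset Pool.Agent.CR53

open Pool.Agent.GM53 (mert mert_pos mert_le)

open Pool.Agent.RG88 (pz pz_zero pz_eq one_le_mert cop_count)

variable {Ω : Type*} [mΩ : MeasurableSpace Ω] {μ : Measure Ω} {E : ℕ → Set Ω}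

/-- the integers of the block that are prime to `primorial z` -/
def blkc (z n : ℕ) : Finset ℕ := (blk n).filter (fun m => m.Coprime (primorial z))

lemma blkc_eq (z n : ℕ) :
    blkc z n = (Finset.Ico (n ^ 2 + 1) ((n + 1) ^ 2)).filter (fun m => m.Coprime (primorial z)) := by
  ext m
  unfold blkc blk
  rw [mem_filter, mem_filter, mem_Ioo, mem_Ico]
  constructor
  · intro h
    exact ⟨⟨h.1.1, h.1.2⟩, h.2⟩
  · intro h
    exact ⟨⟨h.1.1, h.1.2⟩, h.2⟩

lemma card_blkc (z n : ℕ) : |((blkc z n).card : ℝ) - 2 * n / mert z| ≤ primorial z := by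
  rw [blkc_eq]
  have h0 : (n + 1) ^ 2 = n ^ 2 + 2 * n + 1 := by ring
  have h := cop_count z (u := n ^ 2 + 1) (v := (n + 1) ^ 2) (by omega)
  have e : ((((n + 1) ^ 2 : ℕ) : ℝ) - ((n ^ 2 + 1 : ℕ) : ℝ)) = 2 * n := by
    push_cast
    ring
  rw [e] at h
  exact h

lemma card_blkc_le (z n : ℕ) : (blkc z n).card ≤ 2 * n :=
  (card_le_card (filter_subset _ _)).trans (blk_card n).le

lemma sqrt_blk {n m : ℕ} (hm : m ∈ blk n) : Nat.sqrt m = n := by
  unfold blk at hm
  rw [mem_Ioo] at hm
  apply le_antisymm
  · have h1 : Nat.sqrt m < n + 1 := by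
      rw [Nat.sqrt_lt']
      exact hm.2
    omega
  · rw [Nat.le_sqrt']
    exact hm.1.le

lemma law_blkc [IsProbabilityMeasure μ] (y : ℕ → ℕ) (hp : ∀ m, μ.real (E m) = pz (y (Nat.sqrt m)) m)
    (n : ℕ) : law μ E (blk n) = law μ E (blkc (y n) n) := by
  have hae : ∀ᵐ ω ∂μ, ∀ m : ℕ, ¬ m.Coprime (primorial (y (Nat.sqrt m))) → ω ∉ E m := by
    rw [ae_all_iff]
    intro m
    by_cases hm : m.Coprime (primorial (y (Nat.sqrt m)))
    · exact Eventually.of_forall fun ω h => absurd hm h
    · have h0 : μ (E m) = 0 := by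
        have h1 : μ.real (E m) = 0 := by rw [hp m, pz_zero hm]
        exact (measureReal_eq_zero_iff (measure_ne_top μ _)).1 h1
      have h2 : ∀ᵐ ω ∂μ, ω ∉ E m := measure_eq_zero_iff_ae_notMem.1 h0
      filter_upwards [h2] with ω h3 _
      exact h3
  have hcnt : ∀ᵐ ω ∂μ, cnt E (blk n) ω = cnt E (blkc (y n) n) ω := by
    filter_upwards [hae] with ω h
    unfold cnt blkc
    rw [sum_filter]
    refine sum_congr rfl fun m hmb => ?_
    by_cases hm : m.Coprime (primorial (y n))
    · rw [if_pos hm]
    · rw [if_neg hm]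
      exact Set.indicator_of_notMem (h m (by rw [sqrt_blk hmb]; exact hm)) _
  funext i
  unfold law
  refine measureReal_congr ?_
  filter_upwards [hcnt] with ω h
  have : (cnt E (blk n) ω = i) = (cnt E (blkc (y n) n) ω = i) := by rw [h]
  exact this

lemma mert_small : mert 0 = 1 ∧ mert 1 = 1 := by
  constructor
  · unfold mert
    rw [Finset.prod_eq_one]
    intro p hp
    rw [mem_filter, mem_range] at hp
    have := hp.2.two_le
    omega
  · unfold mert
    rw [Finset.prod_eq_one]
    intro p hp
    rw [mem_filter, mem_range] at hp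
    have := hp.2.two_le
    omega

/-- `mert (y n) / log n → 0` -/
lemma mert_lim {y : ℕ → ℕ} (hy : Tendsto (fun n : ℕ => (y n : ℝ) / Real.log n) atTop (𝓝 0)) :
    Tendsto (fun n : ℕ => mert (y n) / Real.log n) atTop (𝓝 0) := by
  obtain ⟨C, hC, hm⟩ := mert_le
  have hb : ∀ k : ℕ, mert k ≤ 1 + C * k := by
    intro k
    rcases Nat.lt_or_ge k 2 with h | h
    · have h0 : (0 : ℝ) ≤ C * k := by positivity
      interval_cases k
      · rw [mert_small.1]; linarith
      · rw [mert_small.2]; linarith
    · have h2 : (2 : ℝ) ≤ k := by exact_mod_cast h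
      have h1 : Real.log k ≤ k := (Real.log_le_sub_one_of_pos (by linarith)).trans (by linarith)
      have := hm k h
      have := mul_le_mul_of_nonneg_left h1 hC.le
      linarith
  have h1 : Tendsto (fun n : ℕ => 1 / Real.log n + C * ((y n : ℝ) / Real.log n)) atTop
      (𝓝 (0 + C * 0)) := t_invlog.add (hy.const_mul C)
  rw [mul_zero, add_zero] at h1
  refine squeeze_zero' ?_ ?_ h1
  · filter_upwards [eventually_ge_atTop 3] with n hn
    exact div_nonneg (mert_pos _).le (by linarith [log_ge_one hn])
  · filter_upwards [eventually_ge_atTop 3] with n hn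
    have hL := log_ge_one hn
    have e : 1 / Real.log n + C * ((y n : ℝ) / Real.log n) = (1 + C * y n) / Real.log n := by ring
    rw [e]
    exact div_le_div_of_nonneg_right (hb _) (by linarith)

/-- `primorial (y n) / √n → 0` -/
lemma prim_lim {y : ℕ → ℕ} (hy : Tendsto (fun n : ℕ => (y n : ℝ) / Real.log n) atTop (𝓝 0)) :
    Tendsto (fun n : ℕ => ((primorial (y n) : ℕ) : ℝ) / Real.sqrt n) atTop (𝓝 0) := by
  have h1 : Tendsto (fun n : ℕ => (n : ℝ) ^ (-(1 / 4 : ℝ))) atTop (𝓝 0) :=
    (tendsto_rpow_neg_atTop (by norm_num)).comp tendsto_natCast_atTop_atTop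
  refine squeeze_zero' ?_ ?_ h1
  · exact Eventually.of_forall fun n => by positivity
  · filter_upwards [eventually_ge_atTop 3,
      hy.eventually_lt_const (show (0 : ℝ) < 1 / 8 by norm_num)] with n hn h8
    have hL := log_ge_one hn
    have hnn : (3 : ℝ) ≤ n := by exact_mod_cast hn
    have hn0 : (0 : ℝ) < n := by linarith
    rw [div_lt_iff₀ (by linarith)] at h8
    have h2 : ((primorial (y n) : ℕ) : ℝ) ≤ (4 : ℝ) ^ (y n) := by
      exact_mod_cast primorial_le_four_pow (y n)
    have h3 : (4 : ℝ) ^ (y n) ≤ (n : ℝ) ^ (1 / 4 : ℝ) := by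
      rw [← Real.rpow_natCast, Real.rpow_def_of_pos (by norm_num), Real.rpow_def_of_pos hn0]
      apply Real.exp_le_exp.2
      have h4 : Real.log 4 < 2 := by
        have : (4 : ℝ) = 2 ^ 2 := by norm_num
        rw [this, Real.log_pow]
        have := Real.log_two_lt_d9
        push_cast
        linarith
      have h5 : 0 ≤ (y n : ℝ) := Nat.cast_nonneg _
      nlinarith [mul_le_mul_of_nonneg_right h4.le h5]
    have h6 : (n : ℝ) ^ (-(1 / 4 : ℝ)) = (n : ℝ) ^ (1 / 4 : ℝ) / Real.sqrt n := by
      rw [Real.sqrt_eq_rpow, ← Real.rpow_sub hn0]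
      norm_num
    rw [h6]
    exact div_le_div_of_nonneg_right (h2.trans h3) (Real.sqrt_nonneg _)

theorem laws_sieve [IsProbabilityMeasure μ] {y : ℕ → ℕ}
    (hy : Tendsto (fun n : ℕ => (y n : ℝ) / Real.log n) atTop (𝓝 0))
    (hE : ∀ m, MeasurableSet (E m))
    (hi : iIndepSet E μ) (hp : ∀ m, μ.real (E m) = pz (y (Nat.sqrt m)) m) :
    LawsZ (fun n => law μ E (blk n)) := by
  refine ⟨fun n i => measureReal_nonneg, fun n i h => ?_, fun n => ?_, ?_⟩
  · have h1 : {ω | cnt E (blk n) ω = i} = ∅ := by
      ext ω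
      simp only [Set.mem_ofPred_eq, Set.mem_empty_iff_false, iff_false]
      have := cnt_le (E := E) (blk n) ω
      rw [blk_card] at this
      omega
    show μ.real {ω | cnt E (blk n) ω = i} = 0
    rw [h1]; simp
  · show ∑ i ∈ range (2 * n + 1), law μ E (blk n) i = 1
    rw [sum_law hE]
    have h1 : {ω | cnt E (blk n) ω ≤ 2 * n} = Set.univ := by
      ext ω
      simp only [Set.mem_ofPred_eq, Set.mem_univ, iff_true]
      have := cnt_le (E := E) (blk n) ω
      rwa [blk_card] at this
    rw [h1]; simp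
  have hml := mert_lim hy
  refine ⟨fun n => (blkc (y n) n).card, fun n => mert (y n) / (2 * Real.log (n + 1) - mert (y n)),
    fun n => mert (y n) / (2 * Real.log n - mert (y n)), fun n => primorial (y n), ?_,
    prim_lim hy, ?_⟩
  · have h1 : Tendsto (fun n : ℕ => (mert (y n) / Real.log n) / (2 - mert (y n) / Real.log n))
        atTop (𝓝 (0 / (2 - 0))) :=
      hml.div (tendsto_const_nhds.sub hml) (by norm_num)
    rw [zero_div] at h1
    refine h1.congr' ?_
    filter_upwards [eventually_ge_atTop 3] with n hn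
    have hL := log_ge_one hn
    have h2 : Real.log n ≠ 0 := by linarith
    have e : 2 - mert (y n) / Real.log n = (2 * Real.log n - mert (y n)) / Real.log n := by
      field_simp
    rw [e, div_div_div_cancel_right₀ h2]
  filter_upwards [eventually_ge_atTop 3,
    hml.eventually_lt_const (show (0 : ℝ) < 1 / 2 by norm_num), t_log.eventually_ge_atTop 2]
    with n hn hml2 hlog2
  have hM0 : 0 < mert (y n) := mert_pos (y n)
  have hM1 : 1 ≤ mert (y n) := one_le_mert (y n)
  obtain ⟨M, hM⟩ : ∃ M, M = mert (y n) := ⟨_, rfl⟩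
  rw [← hM] at hM0 hM1 hml2
  rw [← hM]
  have hP1 : (1 : ℝ) ≤ (primorial (y n) : ℕ) := by exact_mod_cast primorial_pos (y n)
  have hn3 : (3 : ℝ) ≤ n := by exact_mod_cast hn
  rw [div_lt_iff₀ (by linarith)] at hml2
  have hL1 : M + 1 ≤ Real.log n := by linarith
  have hL' : Real.log n ≤ Real.log (n + 1) := log_succ_ge n (by omega)
  have hd := log_succ_sub n (by omega)
  have hwm : 0 < M / (2 * Real.log (n + 1) - M) := div_pos hM0 (by linarith)
  have hwp : 0 < M / (2 * Real.log n - M) := div_pos hM0 (by linarith)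
  have key : ∀ m ∈ blkc (y n) n, 2 * Real.log n < Real.log m ∧ Real.log m ≤ 2 * Real.log (n + 1)
      ∧ μ.real (E m) = M / Real.log m := by
    intro m hm
    unfold blkc at hm
    rw [mem_filter] at hm
    obtain ⟨hm, hc⟩ := hm
    have hsq := sqrt_blk hm
    unfold blk at hm
    rw [mem_Ioo] at hm
    have h3 : 3 ≤ m := by nlinarith [hm.1]
    have hm1 : ((n : ℝ)) ^ 2 < m := by exact_mod_cast hm.1
    have hm2 : (m : ℝ) ≤ ((n : ℝ) + 1) ^ 2 := by exact_mod_cast hm.2.le
    have hl : 2 * Real.log n < Real.log m := by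
      have : Real.log ((n : ℝ) ^ 2) < Real.log m := Real.log_lt_log (by positivity) hm1
      rwa [Real.log_pow, Nat.cast_ofNat] at this
    refine ⟨hl, ?_, ?_⟩
    · have : Real.log m ≤ Real.log (((n : ℝ) + 1) ^ 2) :=
        Real.log_le_log (by linarith [sq_nonneg (n : ℝ)]) hm2
      rwa [Real.log_pow, Nat.cast_ofNat] at this
    · rw [hp m, hsq, pz_eq h3 (by rw [← hM]; linarith), if_pos hc, ← hM]
  have hr : Ratio (law μ E (blkc (y n) n)) ((blkc (y n) n).card : ℝ)
      (M / (2 * Real.log (n + 1) - M)) (M / (2 * Real.log n - M)) := by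
    refine law_ratio hE hi (blkc (y n) n) rfl ?_ ?_
    · intro m hm
      obtain ⟨h1, h2, h3⟩ := key m hm
      rw [h3]
      have hl : M + 1 < Real.log m := by linarith
      have hl' : 0 < 2 * Real.log (n + 1) - M := by linarith
      have hlp : 0 < Real.log m := by linarith
      have hlne : Real.log m ≠ 0 := hlp.ne'
      have e : 1 - M / Real.log m = (Real.log m - M) / Real.log m := by
        rw [sub_div, div_self hlne]
      rw [e, div_mul_div_comm, div_le_div_iff₀ (by positivity) (by linarith)]
      have : (M * Real.log m) * (Real.log m - M) ≤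
          (M * Real.log m) * (2 * Real.log (n + 1) - M) :=
        mul_le_mul_of_nonneg_left (by linarith) (by positivity)
      linarith
    · intro m hm
      obtain ⟨h1, h2, h3⟩ := key m hm
      rw [h3]
      have hl : M + 1 < Real.log m := by linarith
      have hl' : 0 < 2 * Real.log n - M := by linarith
      have hlp : 0 < Real.log m := by linarith
      have hlne : Real.log m ≠ 0 := hlp.ne'
      have e : 1 - M / Real.log m = (Real.log m - M) / Real.log m := by
        rw [sub_div, div_self hlne]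
      rw [e, div_mul_div_comm, div_le_div_iff₀ (by linarith) (by positivity)]
      have : (M * Real.log m) * (2 * Real.log n - M) ≤
          (M * Real.log m) * (Real.log m - M) :=
        mul_le_mul_of_nonneg_left (by linarith) (by positivity)
      linarith
  obtain ⟨T, hT⟩ : ∃ T : ℝ, T = ((blkc (y n) n).card : ℝ) := ⟨_, rfl⟩
  have hT0 : 0 ≤ T := by rw [hT]; exact Nat.cast_nonneg _
  have hT1 : |T - 2 * n / M| ≤ primorial (y n) := by rw [hT, hM]; exact card_blkc (y n) n
  have hT2 : T ≤ 2 * n := by rw [hT]; exact_mod_cast card_blkc_le (y n) n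
  have eP : M / (2 * Real.log n - M) * T / (1 + M / (2 * Real.log n - M)) =
      T * M / (2 * Real.log n) := by
    have h1 : 2 * Real.log n - M ≠ 0 := by linarith
    have h2 : Real.log n ≠ 0 := by linarith
    have h3 : 1 + M / (2 * Real.log n - M) = 2 * Real.log n / (2 * Real.log n - M) := by
      field_simp; ring
    rw [h3]
    field_simp
  have eM : M / (2 * Real.log (n + 1) - M) * T / (1 + M / (2 * Real.log (n + 1) - M)) =
      T * M / (2 * Real.log (n + 1)) := by
    have h1 : 2 * Real.log (n + 1) - M ≠ 0 := by linarith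
    have h2 : Real.log (n + 1) ≠ 0 := by linarith
    have h3 : 1 + M / (2 * Real.log (n + 1) - M) =
        2 * Real.log (n + 1) / (2 * Real.log (n + 1) - M) := by
      field_simp; ring
    rw [h3]
    field_simp
  refine ⟨?_, hwm, hwp, hP1, ?_, ?_, ?_, ?_⟩
  · show Ratio (law μ E (blk n)) _ _ _
    rw [law_blkc y hp n]
    exact hr
  · show ∑ i ∈ range ((blkc (y n) n).card + 1), law μ E (blk n) i = 1
    rw [law_blkc y hp n, sum_law hE]
    have h1 : {ω | cnt E (blkc (y n) n) ω ≤ (blkc (y n) n).card} = Set.univ := by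
      ext ω
      simp only [Set.mem_ofPred_eq, Set.mem_univ, iff_true]
      exact cnt_le (E := E) (blkc (y n) n) ω
    rw [h1]; simp
  · rw [← hT, eP]
    have e1 : T * M / (2 * Real.log n) - mu n = (T - 2 * n / M) * (M / (2 * Real.log n)) := by
      unfold mu
      have h2 : Real.log n ≠ 0 := by linarith
      field_simp
    have h3 : 0 ≤ M / (2 * Real.log n) := by
      apply div_nonneg hM0.le
      linarith
    have h3' : M / (2 * Real.log n) ≤ 1 := by
      rw [div_le_one (by linarith)]
      linarith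
    rw [e1, abs_mul, abs_of_nonneg h3]
    have h4 : |T - 2 * n / M| * (M / (2 * Real.log n)) ≤
        primorial (y n) * 1 := mul_le_mul hT1 h3' h3 (by linarith)
    linarith
  · rw [← hT, eP, eM]
    exact div_le_div_of_nonneg_left (by positivity) (by linarith) (by linarith)
  · rw [← hT, eP, eM, div_sub_div _ _ (by linarith) (by linarith),
      div_le_one (mul_pos (by linarith) (by linarith))]
    have h5 : T * (Real.log (n + 1) - Real.log n) ≤ 2 := by
      have h6 : T * (Real.log (n + 1) - Real.log n) ≤ 2 * n * (1 / n) :=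
        mul_le_mul hT2 hd (by linarith) (by linarith)
      have h7 : 2 * (n : ℝ) * (1 / n) = 2 := by field_simp
      linarith
    have h8 : T * M * (2 * Real.log (n + 1)) - 2 * Real.log n * (T * M) =
        2 * M * (T * (Real.log (n + 1) - Real.log n)) := by ring
    rw [h8]
    have h9 : 2 * M * (T * (Real.log (n + 1) - Real.log n)) ≤ 2 * M * 2 :=
      mul_le_mul_of_nonneg_left h5 (by linarith)
    have h10 : M ≤ Real.log n := by linarith
    have h11 : 1 ≤ Real.log (n + 1) := by linarith
    nlinarith [mul_le_mul h10 h11 zero_le_one (by linarith : (0 : ℝ) ≤ Real.log n)]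

end Pool.Agent.CY53
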